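import Pool.Agent.Helper83.CK.St

/-!
Project CK (MP_f663dd_lc), module O: order types
-/

namespace Pool.Agent.Helper84.CK
open Pool.Agent.Helper83.CK Cardinal Set
universe u

theorem mO (hH : StH.{u}) : StO.{u} := by
  classical
  intro k hk
  have hγ : #(k.ord.ToType) = k := Cardinal.mk_ord_toType k
  have hne : Nonempty k.ord.ToType := by
    rw [← Cardinal.mk_ne_zero_iff, hγ]
    exact (lt_of_lt_of_le Cardinal.aleph0_pos hk).ne'
  obtain ⟨H, hHH⟩ := hH k.ord.ToType (by rw [hγ]; exact hk)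
  have hE : ∀ d : (Order.succ k).ord.ToType, ∃ e : (Order.succ k).ord.ToType → k.ord.ToType,
      Set.InjOn e (Iio d) := by
    intro d
    have h1 : #(Iio d) < Order.succ k := Cardinal.mk_Iio_toType_ord_lt d
    have h2 : #(Iio d) ≤ #(k.ord.ToType) := by
      rw [hγ]
      exact Order.lt_succ_iff.1 h1
    obtain ⟨φ⟩ := (Cardinal.le_def _ _).1 h2
    refine ⟨fun a => if h : a < d then φ ⟨a, h⟩ else hne.some, ?_⟩
    intro a ha b hb hab
    have ha' : a < d := ha
    have hb' : b < d := hb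
    simp only [ha', hb', dif_pos] at hab
    exact congrArg Subtype.val (φ.injective hab)
  choose E hEi using hE
  refine ⟨fun t => if h : ∃ m, IsGreatest t m then H (E h.choose '' (t \ {h.choose})) else hne.some, ?_⟩
  intro X d hdX hX
  rw [Set.eq_univ_iff_forall]
  intro c
  have hinj : Set.InjOn (E d) (X ∩ Iio d) := (hEi d).mono Set.inter_subset_right
  have hB : #(E d '' (X ∩ Iio d) : Set k.ord.ToType) = #(k.ord.ToType) := by
    rw [Cardinal.mk_image_eq_of_injOn _ _ hinj, hX, hγ]
  obtain ⟨s, hsB, hs0, hsc⟩ := hHH _ hB c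
  set t0 : Set (Order.succ k).ord.ToType := {a | a ∈ X ∩ Iio d ∧ E d a ∈ s} with ht0
  have him : E d '' t0 = s := by
    ext b
    constructor
    · rintro ⟨a, ha, rfl⟩
      exact ha.2
    · intro hb
      obtain ⟨a, ha, rfl⟩ := hsB hb
      exact ⟨a, ⟨ha, hb⟩, rfl⟩
  have hinj0 : Set.InjOn (E d) t0 := hinj.mono (fun a ha => ha.1)
  have ht0c : #t0 = ℵ₀ := by
    rw [← hs0, ← him, Cardinal.mk_image_eq_of_injOn _ _ hinj0]
  have hd0 : d ∉ t0 := fun h => lt_irrefl d h.1.2
  have htc : #(insert d t0 : Set _) = ℵ₀ := by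
    rw [Cardinal.mk_insert hd0, ht0c]
    exact Cardinal.add_one_eq le_rfl
  have hsub : insert d t0 ⊆ X := by
    intro a ha
    rcases Set.mem_insert_iff.1 ha with rfl | h
    · exact hdX
    · exact h.1.1
  have hg : IsGreatest (insert d t0) d := by
    refine ⟨Set.mem_insert _ _, ?_⟩
    intro a ha
    rcases Set.mem_insert_iff.1 ha with rfl | h
    · exact le_rfl
    · exact le_of_lt h.1.2
  have hex : ∃ m, IsGreatest (insert d t0) m := ⟨d, hg⟩
  have hch : hex.choose = d := hex.choose_spec.unique hg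
  refine ⟨insert d t0, ⟨hsub, htc⟩, ?_⟩
  change (if h : ∃ m, IsGreatest (insert d t0) m then H (E h.choose '' (insert d t0 \ {h.choose}))
    else hne.some) = c
  rw [dif_pos hex, hch]
  have hdiff : insert d t0 \ {d} = t0 := by
    rw [Set.insert_sdiff_of_mem _ (Set.mem_singleton d)]
    exact Set.sdiff_singleton_eq_self hd0
  rw [hdiff, him, hsc]

end Pool.Agent.Helper84.CK
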